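import Mathlib

/-!
Symmetric products of Borsuk and Ulam and the fixed point property.
-/

noncomputable section

namespace Pool.Agent.Lib.MP_3eb21e_gt

open Set Topology

/-- Every continuous self-map has a fixed point. -/
def FPP (X : Type) [TopologicalSpace X] : Prop := ∀ f : X → X, Continuous f → ∃ x, f x = x

/-- The `n`th symmetric product: nonempty subsets with at most `n` elements. -/
structure SymProd (E : Type) (n : ℕ) where
  pts : Set E
  nonempty : pts.Nonempty
  finite : pts.Finite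
  card_le : pts.ncard ≤ n

/-- The systems contained in `u 1 ∪ ... ∪ u n` that meet every `u i`. -/
def nbhd {E : Type} {n : ℕ} (u : Fin n → Set E) : Set (SymProd E n) :=
  {A | A.pts ⊆ ⋃ i, u i ∧ ∀ i, (A.pts ∩ u i).Nonempty}

/-- The topology of the symmetric product: the sets `nbhd u` with all `u i` open generate it. -/
instance symTop (E : Type) [TopologicalSpace E] (n : ℕ) : TopologicalSpace (SymProd E n) :=
  TopologicalSpace.generateFrom {W | ∃ u : Fin n → Set E, (∀ i, IsOpen (u i)) ∧ W = nbhd u}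

/-- The fan: the union of the segments from the origin to the points `(1, 1 / (k + 1))`. -/
def fan : Set (ℝ × ℝ) := {p | 0 ≤ p.1 ∧ p.1 ≤ 1 ∧ ∃ k : ℕ, p.2 = p.1 / (k + 1)}

variable {E : Type} [TopologicalSpace E] {n : ℕ}

lemma isOpen_nbhd {u : Fin n → Set E} (hu : ∀ i, IsOpen (u i)) : IsOpen (nbhd u) :=
  TopologicalSpace.isOpen_generateFrom_of_mem ⟨u, hu, rfl⟩

/-- The system of two points. -/
def pair (hn : 2 ≤ n) (x y : E) : SymProd E n :=
  ⟨{x, y}, insert_nonempty _ _, toFinite _, by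
    refine le_trans (ncard_insert_le _ _) ?_
    rw [ncard_singleton]; exact hn⟩

lemma continuous_pair (hn : 2 ≤ n) {X : Type} [TopologicalSpace X] {a b : X → E}
    (ha : Continuous a) (hb : Continuous b) : Continuous fun t => pair hn (a t) (b t) := by
  rw [continuous_generateFrom_iff]
  rintro _ ⟨u, hu, rfl⟩
  have e : (fun t => pair hn (a t) (b t)) ⁻¹' nbhd u =
      (a ⁻¹' (⋃ i, u i) ∩ b ⁻¹' (⋃ i, u i)) ∩ ⋂ i, (a ⁻¹' u i ∪ b ⁻¹' u i) := by
    ext t
    simp only [nbhd, pair, mem_preimage, mem_ofPred_eq, insert_subset_iff, singleton_subset_iff,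
      mem_inter_iff, mem_iInter, mem_union]
    refine and_congr_right fun _ => forall_congr' fun i => ⟨?_, ?_⟩
    · rintro ⟨z, rfl | rfl, hz⟩
      exacts [Or.inl hz, Or.inr hz]
    · rintro (h | h)
      exacts [⟨_, Or.inl rfl, h⟩, ⟨_, Or.inr rfl, h⟩]
  rw [e]
  exact (((isOpen_iUnion hu).preimage ha).inter ((isOpen_iUnion hu).preimage hb)).inter
    (isOpen_iInter_of_finite fun i => ((hu i).preimage ha).union ((hu i).preimage hb))

/-- The largest value of a function on a system. -/
def top (h : E → ℝ) (A : SymProd E n) : ℝ := sSup (h '' A.pts)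

omit [TopologicalSpace E] in
lemma top_isGreatest (h : E → ℝ) (A : SymProd E n) : IsGreatest (h '' A.pts) (top h A) :=
  ⟨(A.nonempty.image h).csSup_mem (A.finite.image h),
    fun _ hx => le_csSup (A.finite.image h).bddAbove hx⟩

lemma continuous_top (hn : 2 ≤ n) {h : E → ℝ} (hh : Continuous h) :
    Continuous (top (n := n) h) := by
  rw [OrderTopology.continuous_iff]
  intro c
  have i0 : Fin n := ⟨0, by omega⟩
  obtain ⟨i1, hi1⟩ : ∃ i1 : Fin n, i1 ≠ i0 := by
    have : Nontrivial (Fin n) := Fin.nontrivial_iff_two_le.2 hn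
    exact exists_ne i0
  constructor
  · classical
    have e : top (n := n) h ⁻¹' Ioi c = nbhd fun i => if i = i0 then h ⁻¹' Ioi c else univ := by
      ext A
      constructor
      · intro hA
        obtain ⟨x, hx, e⟩ := (top_isGreatest h A).1
        refine ⟨fun y _ => mem_iUnion.2 ⟨i1, by simp [hi1]⟩, fun i => ⟨x, hx, ?_⟩⟩
        by_cases hi : i = i0
        · simp only [hi, if_true]; rw [mem_preimage, e]; exact hA
        · simp [hi]
      · rintro ⟨-, hA⟩
        obtain ⟨x, hx, hx'⟩ := hA i0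
        simp only [if_true] at hx'
        exact lt_of_lt_of_le hx' ((top_isGreatest h A).2 ⟨x, hx, rfl⟩)
    rw [e]
    refine isOpen_nbhd fun i => ?_
    by_cases hi : i = i0
    · simp only [hi, if_true]; exact isOpen_Ioi.preimage hh
    · simp [hi]
  · have e : top (n := n) h ⁻¹' Iio c = nbhd fun _ => h ⁻¹' Iio c := by
      ext A
      constructor
      · intro hA
        have k : A.pts ⊆ h ⁻¹' Iio c := fun y hy =>
          lt_of_le_of_lt ((top_isGreatest h A).2 ⟨y, hy, rfl⟩) hA
        obtain ⟨x, hx⟩ := A.nonempty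
        exact ⟨fun y hy => mem_iUnion.2 ⟨i0, k hy⟩, fun _ => ⟨x, hx, k hx⟩⟩
      · rintro ⟨hA, -⟩
        obtain ⟨x, hx, e⟩ := (top_isGreatest h A).1
        obtain ⟨_, hx'⟩ := mem_iUnion.1 (hA hx)
        rw [mem_preimage, ← e]; exact hx'
    rw [e]
    exact isOpen_nbhd fun _ => isOpen_Iio.preimage hh

/-- A curve that rests at `x m` during the first half of the interval `[m, m + 1]`. -/
lemma exists_curve [PathConnectedSpace E] (x : ℤ → E) :
    ∃ α : ℝ → E, Continuous α ∧ ∀ (m : ℤ) (t : ℝ), m ≤ t → t ≤ m + 1 / 2 → α t = x m := by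
  let w : ∀ m : ℤ, Path (x m) (x (m + 1)) := fun m => PathConnectedSpace.somePath _ _
  let α : ℝ → E := fun t => (w ⌊t⌋).extend (2 * (t - ⌊t⌋) - 1)
  have k : ∀ (m : ℤ), ∀ t ∈ Icc (m : ℝ) (m + 1), α t = (w m).extend (2 * (t - m) - 1) := by
    intro m t ht
    rcases ht.2.eq_or_lt with e | e
    · have f : ⌊t⌋ = m + 1 := by rw [e]; exact_mod_cast Int.floor_intCast (R := ℝ) (m + 1)
      have g : ∀ j : ℤ, j = m + 1 → (w j).extend (2 * (t - j) - 1) = x (m + 1) := by
        rintro _ rfl
        exact (w (m + 1)).extend_of_le_zero (by rw [e]; push_cast; linarith)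
      rw [(w m).extend_of_one_le (by rw [e]; linarith)]
      exact g _ f
    · have f : ⌊t⌋ = m := Int.floor_eq_iff.2 ⟨ht.1, e⟩
      have g : ∀ j : ℤ, j = m → (w j).extend (2 * (t - j) - 1) = (w m).extend (2 * (t - m) - 1) := by
        rintro _ rfl; rfl
      exact g _ f
  refine ⟨α, ?_, fun m t h1 h2 => ?_⟩
  · refine LocallyFinite.continuous (f := fun m : ℤ => Icc (m : ℝ) (m + 1)) ?_ ?_
      (fun _ => isClosed_Icc) fun m => ?_
    · intro t
      refine ⟨Ioo (t - 1) (t + 1), Ioo_mem_nhds (by linarith) (by linarith), ?_⟩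
      refine (finite_Icc (⌊t⌋ - 2) (⌊t⌋ + 2)).subset ?_
      rintro m ⟨s, ⟨a1, a2⟩, a3, a4⟩
      have b1 := Int.floor_le t
      have b2 := Int.lt_floor_add_one t
      constructor
      · have : ((⌊t⌋ - 2 : ℤ) : ℝ) ≤ m := by push_cast; linarith
        exact_mod_cast this
      · have : (m : ℝ) ≤ ((⌊t⌋ + 2 : ℤ) : ℝ) := by push_cast; linarith
        exact_mod_cast this
    · exact eq_univ_of_forall fun t => mem_iUnion.2 ⟨⌊t⌋, Int.floor_le t,
        (Int.lt_floor_add_one t).le⟩
    · exact ((w m).continuous_extend.comp (by fun_prop)).continuousOn.congr (k m)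
  · rw [k m t ⟨h1, by linarith⟩]
    exact (w m).extend_of_le_zero (by linarith)

/-- A path connected space with an unbounded continuous function: no symmetric product with
`n ≥ 2` has the fixed point property. -/
theorem not_fpp_of_unbounded [PathConnectedSpace E] {h : E → ℝ} (hh : Continuous h)
    (hu : ¬ BddAbove (range h)) (hn : 2 ≤ n) : ¬ FPP (SymProd E n) := by
  intro hF
  have hx : ∀ m : ℤ, ∃ x, (m : ℝ) < h x := fun m => by
    obtain ⟨_, ⟨x, rfl⟩, hx⟩ := not_bddAbove_iff.1 hu (m : ℝ)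
    exact ⟨x, hx⟩
  choose x hx using hx
  obtain ⟨α, hα, hα'⟩ := exists_curve x
  have ct := continuous_top hn hh
  obtain ⟨A, hA⟩ := hF (fun A => pair hn (α (top h A + 1)) (α (top h A + 1 + 1 / 2)))
    (continuous_pair hn (hα.comp (by fun_prop)) (hα.comp (by fun_prop)))
  have m1 : α (top h A + 1) ∈ A.pts := by
    have : α (top h A + 1) ∈ (pair hn (α (top h A + 1)) (α (top h A + 1 + 1 / 2))).pts :=
      Or.inl rfl
    rwa [hA] at this
  have m2 : α (top h A + 1 + 1 / 2) ∈ A.pts := by
    have : α (top h A + 1 + 1 / 2) ∈ (pair hn (α (top h A + 1)) (α (top h A + 1 + 1 / 2))).pts :=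
      Or.inr rfl
    rwa [hA] at this
  have l1 := (top_isGreatest h A).2 ⟨_, m1, rfl⟩
  have l2 := (top_isGreatest h A).2 ⟨_, m2, rfl⟩
  have b1 := Int.floor_le (top h A + 1)
  have b2 := Int.lt_floor_add_one (top h A + 1)
  rcases le_total (top h A + 1) (⌊top h A + 1⌋ + 1 / 2) with c | c
  · rw [hα' _ _ b1 c] at l1
    linarith [hx ⌊top h A + 1⌋]
  · rw [hα' (⌊top h A + 1⌋ + 1) _ (by push_cast; linarith) (by push_cast; linarith)] at l2
    have := hx (⌊top h A + 1⌋ + 1)
    push_cast at this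
    linarith

end Pool.Agent.Lib.MP_3eb21e_gt
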