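import Pool.Agent.Lib.MP_3eb21e_gt.Sym

/-!
Normal spaces that are not countably compact, and the fan.
-/

noncomputable section

namespace Pool.Agent.Lib.MP_3eb21e_gt

open Set Topology Filter

lemma exists_unbounded {E : Type} [TopologicalSpace E] [T4Space E]
    (hE : ¬ CountablyCompactSpace E) : ∃ h : E → ℝ, Continuous h ∧ ¬ BddAbove (range h) := by
  rw [← isCountablyCompact_univ_iff, isCountablyCompact_iff_infinite_subset_has_accPt] at hE
  push Not at hE
  obtain ⟨B, -, hB, hacc⟩ := hE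
  let b : ℕ ↪ E := (hB.natEmbedding B).trans (Function.Embedding.subtype _)
  have hb : range b ⊆ B := by rintro _ ⟨k, rfl⟩; exact (hB.natEmbedding B k).2
  have hd : IsClosed (range b) ∧ IsDiscrete (range b) := by
    rw [isClosed_and_discrete_iff]
    intro x
    have := hacc x (mem_univ x)
    rw [AccPt, not_neBot] at this
    exact (disjoint_iff.2 this).mono_right (principal_mono.2 hb)
  have := hd.2.to_subtype
  obtain ⟨g, hg⟩ := ContinuousMap.exists_restrict_eq hd.1
    (⟨fun y : range b => (y.2.choose : ℝ), continuous_of_discreteTopology⟩ : C(range b, ℝ))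
  refine ⟨g, g.continuous, ?_⟩
  rintro ⟨c, hc⟩
  obtain ⟨k, hk⟩ := exists_nat_gt c
  have e := DFunLike.congr_fun hg ⟨b k, k, rfl⟩
  have e2 : (⟨k, rfl⟩ : ∃ j, b j = b k).choose = k :=
    b.injective (⟨k, rfl⟩ : ∃ j, b j = b k).choose_spec
  have e3 : g (b k) = k := e.trans (congrArg Nat.cast e2)
  have := hc ⟨b k, rfl⟩
  linarith

/-- The point of the `k`th segment with first coordinate `t`. -/
def seg (k : ℕ) (t : unitInterval) : fan := ⟨(t, t / (k + 1)), t.2.1, t.2.2, k, rfl⟩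

lemma continuous_seg (k : ℕ) : Continuous (seg k) := by
  refine Continuous.subtype_mk ?_ _
  fun_prop

lemma gap {j k : ℕ} (h : j ≠ k) :
    (1 : ℝ) ≤ (k + 1) * (k + 2) * |1 / ((j : ℝ) + 1) - 1 / (k + 1)| := by
  have hj : (0 : ℝ) ≤ j := Nat.cast_nonneg j
  have hk : (0 : ℝ) ≤ k := Nat.cast_nonneg k
  have e : ((k : ℝ) + 1) * (k + 2) * (1 / ((j : ℝ) + 1) - 1 / (k + 1)) =
      (k + 2) * (k - j) / (j + 1) := by field_simp; ring
  rw [← abs_of_nonneg (a := ((k : ℝ) + 1) * (k + 2)) (by positivity), ← abs_mul, e, le_abs]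
  rcases lt_or_gt_of_ne h with c | c
  · have : (j : ℝ) + 1 ≤ k := by exact_mod_cast c
    left
    rw [le_div_iff₀ (by positivity)]
    nlinarith
  · have : (k : ℝ) + 1 ≤ j := by exact_mod_cast c
    right
    rw [← neg_div, le_div_iff₀ (by positivity)]
    nlinarith

theorem fan_fpp : FPP fan := by
  intro f hf
  obtain ⟨-, -, k, hk⟩ := (f (seg 0 0)).2
  let ρ : ℝ × ℝ → ℝ := fun p => max 0 (p.1 - (k + 1) * (k + 2) * |p.2 - p.1 / (k + 1)|)
  have hρ : Continuous ρ := by fun_prop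
  have ρ0 : ∀ p, 0 ≤ ρ p := fun p => le_max_left _ _
  have ρ1 : ∀ p : fan, ρ p ≤ 1 := fun p => max_le zero_le_one (by
    have : (0 : ℝ) ≤ (k + 1) * (k + 2) * |p.1.2 - p.1.1 / (k + 1)| := by positivity
    linarith [p.2.2.1])
  have on : ∀ p : fan, p.1.2 = p.1.1 / (k + 1) → ρ p = p.1.1 := fun p hp => by
    simp only [ρ, hp, sub_self, abs_zero, mul_zero, sub_zero]
    exact max_eq_right p.2.1
  have off : ∀ p : fan, p.1.2 ≠ p.1.1 / (k + 1) → ρ p = 0 := fun p hp => by
    obtain ⟨h0, -, j, hj⟩ := p.2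
    have hjk : j ≠ k := by rintro rfl; exact hp hj
    refine max_eq_left ?_
    have e : p.1.2 - p.1.1 / (k + 1) = p.1.1 * (1 / ((j : ℝ) + 1) - 1 / (k + 1)) := by
      rw [hj]; ring
    rw [e, abs_mul, abs_of_nonneg h0]
    nlinarith [mul_le_mul_of_nonneg_left (gap hjk) h0]
  let g : ℝ → ℝ := fun t => ρ (f (seg k (projIcc 0 1 zero_le_one t))) - t
  have hg : Continuous g :=
    (hρ.comp (continuous_subtype_val.comp (hf.comp ((continuous_seg k).comp
      continuous_projIcc)))).sub continuous_id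
  obtain ⟨t, ht, e⟩ : ∃ t ∈ Icc (0 : ℝ) 1, g t = 0 :=
    intermediate_value_Icc' zero_le_one hg.continuousOn
      ⟨by simp only [g]; linarith [ρ1 (f (seg k (projIcc 0 1 zero_le_one 1)))],
        by simp only [g]; linarith [ρ0 (f (seg k (projIcc 0 1 zero_le_one 0)))]⟩
  simp only [g, projIcc_of_mem _ ht] at e
  refine ⟨seg k ⟨t, ht⟩, ?_⟩
  have key : (f (seg k ⟨t, ht⟩)).1.2 = (f (seg k ⟨t, ht⟩)).1.1 / (k + 1) := by
    by_contra c
    have t0 : t = 0 := by rw [off _ c] at e; linarith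
    subst t0
    have : seg k ⟨0, ht⟩ = seg 0 0 := Subtype.ext (by simp [seg])
    rw [this] at c
    exact c hk
  have e1 : (f (seg k ⟨t, ht⟩)).1.1 = t := by rw [← on _ key]; linarith
  exact Subtype.ext (Prod.ext e1 (by rw [key, e1]; rfl))

lemma fan_pathConnected : PathConnectedSpace fan := by
  refine ⟨⟨seg 0 0⟩, fun x y => ?_⟩
  have k : ∀ x : fan, Joined (seg 0 0) x := by
    rintro ⟨⟨a, b⟩, h0, h1, k, hk⟩
    have e0 : seg 0 0 = seg k 0 := Subtype.ext (by simp [seg])
    have e1 : (⟨(a, b), h0, h1, k, hk⟩ : fan) = seg k ⟨a, h0, h1⟩ :=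
      Subtype.ext (Prod.ext rfl hk)
    rw [e0, e1]
    have : PathConnectedSpace unitInterval :=
      isPathConnected_iff_pathConnectedSpace.1
        ((convex_Icc (0 : ℝ) 1).isPathConnected ⟨0, le_rfl, zero_le_one⟩)
    exact ⟨(PathConnectedSpace.somePath _ _).map (continuous_seg k)⟩
  exact (k x).symm.trans (k y)

lemma fan_not_compact : ¬ CompactSpace fan := by
  intro h
  have hc : IsClosed fan := (isCompact_iff_compactSpace.2 h).isClosed
  have t : Tendsto (fun k : ℕ => ((1 : ℝ), 1 / ((k : ℝ) + 1))) atTop (𝓝 (1, 0)) :=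
    tendsto_const_nhds.prodMk_nhds tendsto_one_div_add_atTop_nhds_zero_nat
  obtain ⟨-, -, k, hk⟩ := hc.mem_of_tendsto t
    (Eventually.of_forall fun k => ⟨zero_le_one, le_rfl, k, rfl⟩)
  have : (0 : ℝ) < 1 / (k + 1) := by positivity
  exact this.ne hk

theorem countablyCompact_of_fpp {E : Type} [TopologicalSpace E] [T4Space E] [PathConnectedSpace E]
    {n : ℕ} (hn : 2 ≤ n) (h : FPP (SymProd E n)) : CountablyCompactSpace E := by
  by_contra hE
  obtain ⟨g, hg, hu⟩ := exists_unbounded hE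
  exact not_fpp_of_unbounded hg hu hn h

theorem fan_sym {n : ℕ} (hn : 2 ≤ n) : ¬ FPP (SymProd fan n) := fun h => by
  have := fan_pathConnected
  have := countablyCompact_of_fpp hn h
  exact fan_not_compact LindelofSpace.compactSpace

end Pool.Agent.Lib.MP_3eb21e_gt
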